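import Pool.Agent.H37.LowOrd

set_option autoImplicit false

namespace Pool.Agent.Results.MP_1308e3_lc.NoCopy

open Pool.Agent.H37

/-- A computable field with a low ordering such that the ordered field has no computable copy. -/
theorem result : ∃ (K : Type) (_ : Field K) (_ : LinearOrder K) (e : ℕ ≃ K),
    (∀ a b c : K, a < b → a + c < b + c) ∧ (∀ a b : K, 0 < a → 0 < b → 0 < a * b) ∧
    Computable₂ (fun a b : ℕ => e.symm (e a + e b)) ∧
    Computable₂ (fun a b : ℕ => e.symm (e a * e b)) ∧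
    Low {n : ℕ | e n.unpair.1 < e n.unpair.2} ∧
    ¬ ∃ (j : K → ℕ) (A M : ℕ → ℕ →. ℕ) (L : ℕ → ℕ →. Bool),
      Function.Injective j ∧ ComputablePred (fun n => n ∈ Set.range j) ∧
      Partrec₂ A ∧ Partrec₂ M ∧ Partrec₂ L ∧
      ∀ a b : K, j (a + b) ∈ A (j a) (j b) ∧ j (a * b) ∈ M (j a) (j b) ∧
        decide (a < b) ∈ L (j a) (j b) :=
  low_ord

end Pool.Agent.Results.MP_1308e3_lc.NoCopy
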